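import Pool.Agent.Helper95.AM.Final

set_option autoImplicit false

/-! # MP_150b3d_gt: the amenable case of Q1, for every smooth strictly convex body -/

namespace Pool.Agent.Results.MP_150b3d_gt.AmenableCase

open ChordMaps

/-- Let `S` be a finite set of nonzero vectors (directions) whose X-rays determine convex bodies and
`K` any smooth strictly convex planar body.  Suppose that the action of the chord maps of `K` in the
directions of `S` on the boundary is amenable in one of the following senses: there is a finitely
additive probability on the Borel subsets of the boundary which is invariant under these chord maps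
(`InvMean`), or for every `ε > 0` there is a finite nonempty set `F` of boundary points such that
there are at most `(1 + ε) |F|` boundary points on the lines through points of `F` with directions
in `S`.  Then every nonempty set `V` of boundary points which is invariant under the chord maps in
the directions of `S` is dense in the boundary. -/
theorem result (S : Finset Plane) (hS : ∀ v ∈ S, v ≠ 0) (hd : Determines S)
    (K : Set Plane) (hK : IsCompact K) (hs : StrictConvex ℝ K) (hi : (interior K).Nonempty)
    (hsm : Smooth K)
    (h : (∃ m : Set Plane → ℝ, InvMean K (S : Set Plane) m) ∨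
      ∀ ε : ℝ, 0 < ε → ∃ F : Finset Plane, F.Nonempty ∧ (F : Set Plane) ⊆ frontier K ∧
        (({y | y ∈ frontier K ∧ ∃ x ∈ F, ∃ v ∈ S, ∃ t : ℝ, y = x + t • v} :
          Set Plane).ncard : ℝ) ≤ (1 + ε) * F.card)
    (V : Set Plane) (hV : V ⊆ frontier K) (hne : V.Nonempty)
    (hinv : ∀ v ∈ S, ∀ x ∈ V, ∀ t : ℝ, x + t • v ∈ frontier K → x + t • v ∈ V) :
    closure V = frontier K :=
  amenable_main S hS hd K hK hs hi hsm h V hV hne hinv

end Pool.Agent.Results.MP_150b3d_gt.AmenableCase
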