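import Pool.Agent.Helper3.Chord.MainU

set_option autoImplicit false

/-! # MP_150b3d_gt: Q1 holds for most convex bodies and all determining sets of directions -/

namespace Pool.Agent.Results.MP_150b3d_gt.GenericAllDirections

open ChordMaps

/-- There is a dense `Gδ` set `G` of planar convex bodies (Hausdorff metric), all strictly convex
and smooth, such that for every `K` in `G` the answer to the question is positive: for EVERY finite
set `S` of directions whose X-rays determine convex bodies, every nonempty (in particular every
infinite) set of boundary points of `K` which is invariant under the chord maps `f_v`, `v ∈ S`, is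
dense in the boundary of `K`. -/
theorem result :
    ∃ G : Set Body, IsGδ G ∧ Dense G ∧ ∀ K ∈ G,
      StrictConvex ℝ K.carrier ∧ Smooth K.carrier ∧
      ∀ S : Finset Plane, (∀ u ∈ S, u ≠ 0) →
        (∀ L M : Set Plane,
          IsCompact L → Convex ℝ L → (interior L).Nonempty →
          IsCompact M → Convex ℝ M → (interior M).Nonempty →
          (∀ u ∈ S, ∀ x : Plane,
            MeasureTheory.volume {t : ℝ | x + t • u ∈ L} =
              MeasureTheory.volume {t : ℝ | x + t • u ∈ M}) →
          L = M) →
        ∀ V ⊆ frontier K.carrier, V.Nonempty →
          (∀ v ∈ S, ∀ x ∈ V, ∀ t : ℝ, x + t • v ∈ frontier K.carrier → x + t • v ∈ V) →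
          closure V = frontier K.carrier :=
  mainU

end Pool.Agent.Results.MP_150b3d_gt.GenericAllDirections
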