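import Pool.Agent.Helper3.LS.L35

set_option autoImplicit false

/-! # MP_150b3d_gt: for EVERY smooth strictly convex body the answer is positive for all
sufficiently large (or sufficiently clustered, or sufficiently dense) sets of directions -/

namespace Pool.Agent.Results.MP_150b3d_gt.LargeSets

open ChordMaps

/-- Let `K` be any smooth strictly convex planar body (not only a generic one).

(1) Let `S` be a finite set of nonzero vectors (directions) whose X-rays determine convex bodies.
(1a) There is `δ > 0` such that for EVERY set `S'` of directions containing `S` and two non-parallel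
vectors at an angle with sine less than `δ`, every nonempty set of boundary points which is
invariant under the chord maps of `S'` is dense in the boundary.
(1b) There is `N` such that this holds for every `S'` containing `S` and at least `N` pairwise
non-parallel vectors.

(2) Let `K` be not an ellipse.
(2a) For every direction `u0` there are a direction `v` and `δ > 0` such that the conclusion holds
for every TRIPLE `{w, w', v'}` with `w, w'` non-parallel, `δ`-close to `u0`, and `v'` `δ`-close to `v`
(a nonempty open set of triples of directions).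
(2b) There is `ε > 0` such that the conclusion holds for every `ε`-dense set of directions. -/
theorem result (K : Set Plane) (hK : IsCompact K) (hs : StrictConvex ℝ K)
    (hi : (interior K).Nonempty) (hsm : Smooth K) :
    (∀ S : Finset Plane, (∀ v ∈ S, v ≠ 0) → Determines S →
      (∃ δ > 0, ∀ S' : Set Plane, (S : Set Plane) ⊆ S' →
        (∃ w ∈ S', ∃ w' ∈ S', cross w w' ≠ 0 ∧ |cross w w'| < δ * (‖w‖ * ‖w'‖)) →
        GoodFor K S') ∧
      ∃ N : ℕ, ∀ S' : Set Plane, (S : Set Plane) ⊆ S' →
        (∃ R : Finset Plane, (R : Set Plane) ⊆ S' ∧ (∀ v ∈ R, v ≠ 0) ∧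
          (∀ v ∈ R, ∀ v' ∈ R, v ≠ v' → cross v v' ≠ 0) ∧ N ≤ R.card) →
        GoodFor K S') ∧
    (¬ IsEllipse K →
      (∀ u0 : Plane, u0 ≠ 0 → ∃ v : Plane, v ≠ 0 ∧ ∃ δ > 0, ∀ w w' v' : Plane,
        dist w u0 < δ → dist w' u0 < δ → dist v' v < δ → cross w w' ≠ 0 →
        GoodFor K {w, w', v'}) ∧
      ∃ ε > 0, ∀ S : Set Plane,
        (∀ u : Plane, ‖u‖ = 1 → ∃ s ∈ S, ∃ c : ℝ, ∃ u', c ≠ 0 ∧ s = c • u' ∧ dist u' u < ε) →
        GoodFor K S) := by
  have hB : SBody K := ⟨hK, hs, hi, hsm⟩
  refine ⟨fun S hS hd => ?_, fun hE => ⟨fun u0 hu => theoremE hB hE hu, theoremB hB hE⟩⟩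
  obtain ⟨⟨δ, hδ, h⟩, -⟩ := theoremJ hB S hS hd
  refine ⟨⟨δ, hδ, h⟩, ?_⟩
  obtain ⟨N, hN⟩ := exists_close_pair hδ
  refine ⟨N, fun S' hSS' hR => ?_⟩
  obtain ⟨R, hRS, hR0, hRp, hRN⟩ := hR
  obtain ⟨w, hw, w', hw', h1, h2⟩ := hN R hR0 hRp hRN
  exact h S' hSS' ⟨w, hRS hw, w', hRS hw', h1, h2⟩

end Pool.Agent.Results.MP_150b3d_gt.LargeSets
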