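import Pool.Agent.Helper45.AD.MainA2

/-!
# MP_150b3d_gt: any two directions and almost any two more, for every body

Problem MP_150b3d_gt (density of boundary sets invariant under chord maps).

Outline of the proof.  The boundary is parametrised by the tangent angle and the chord map in the
direction of angle `t` is lifted to the line: `F_t x`, strictly decreasing in `x`, strictly
increasing in `t`.  Fix the angles other than `t`.  For an arc `B` let `N_t` be the largest
invariant set missing `B`, and `a_t` an end point of its gap around `B`.
1. (Our GapLoops.) Every end point of a gap of `N_t` is fixed by a word whose letters are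
   alternately taken from two pairs, one of which contains the moving direction, and which begins
   with it.  By monotonicity such a loop forces the end point to move with speed bounded below,
   with one sign, when `t` varies (sign lemma).
2. The images of `a_t` under words in the fixed directions are different for different `t`.  If
   there are infinitely many of them for a set of `t` of positive measure, then infinitely many
   sets, of measure bounded below in total by infinity, would fit disjointly into an interval.
3. Let the angles be `a, b, s, t`, with `a, b` given.  By 2 and Fubini, for almost all `(s, t)` the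
   orbits of all gap end points under `f_a, f_b, f_s` are finite, so these points are periodic
   for `f_a f_s`, with a common period (monotone maps of the circle).  For fixed `q, n` the
   solutions `x` of `(F_a F_s)^q x = x + n` away from the tangent points are finitely many for
   almost every `s`: the equation determines `s` as a function of `x` whose inverse is expanding
   (fibres of a Lipschitz function are finite over almost every value).
4. So the gap end points accumulate at most at the finitely many tangent points and their images:
   the derived set of the set of gap end points is a finite invariant set (or the set itself is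
   finite).  By Gardner and McMullen the four directions are those of an affinely regular polygon,
   which fails for almost all `(s, t)`.
-/

set_option autoImplicit false

namespace Pool.Agent.Results.MP_150b3d_gt.TwoMoreDirections

open ChordMaps MeasureTheory

/-- The unit vector with angle `t`. -/
noncomputable def unit (t : ℝ) : Plane := !₂[Real.cos t, Real.sin t]

/-- The set `V` of boundary points of `K` is invariant under the chord map in the direction `v`:
every boundary point on the line through a point of `V` parallel to `v` belongs to `V`. -/
def InvariantUnder (K V : Set Plane) (v : Plane) : Prop :=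
  ∀ x ∈ V, ∀ τ : ℝ, x + τ • v ∈ frontier K → x + τ • v ∈ V

private theorem inv_smul {K V : Set Plane} {v w : Plane} {c : ℝ} (hc : c ≠ 0) (h : v = c • w)
    (hV : InvariantUnder K V v) : InvariantUnder K V w := by
  intro x hx τ hτ
  have h1 : x + τ • w = x + (τ / c) • v := by
    rw [h, smul_smul, div_mul_cancel₀ _ hc]
  rw [h1] at hτ ⊢
  exact hV x hx _ hτ

/-- Let `K` be ANY smooth strictly convex planar body and `u, v` ANY two non-parallel directions.
There are countably many closed Lebesgue null sets in `ℝ × ℝ` such that for all `(s, t)` outside
them every nonempty set `V` of boundary points of `K` which is invariant under the chord maps in the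
directions `u`, `v` and in the two directions with angles `s`, `t` is dense in the boundary of
`K`. -/
theorem result (K : Set Plane) (hK : IsCompact K) (hs : StrictConvex ℝ K)
    (hi : (interior K).Nonempty) (hsm : Smooth K) (u v : Plane)
    (huv : LinearIndependent ℝ ![u, v]) :
    ∃ F : ℕ → Set (ℝ × ℝ), (∀ k, IsClosed (F k) ∧ volume (F k) = 0) ∧
      ∀ s t : ℝ, (∀ k, (s, t) ∉ F k) → ∀ V ⊆ frontier K, V.Nonempty →
        InvariantUnder K V u → InvariantUnder K V v →
        InvariantUnder K V (unit s) → InvariantUnder K V (unit t) →
        closure V = frontier K := by
  obtain ⟨a, ha⟩ := AD.exists_angle u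
  obtain ⟨b, hb⟩ := AD.exists_angle v
  have hu : ‖u‖ ≠ 0 := norm_ne_zero_iff.2 (huv.ne_zero 0)
  have hv : ‖v‖ ≠ 0 := norm_ne_zero_iff.2 (huv.ne_zero 1)
  have hab : ∀ k : ℤ, a ≠ b + k * Real.pi := by
    intro k hk
    rw [LinearIndependent.pair_iff] at huv
    have h1 : AD.dirv a = ((-1 : ℝ) ^ k) • AD.dirv b := by
      rw [hk, AD.dirv_add_int_pi]
    have h2 := huv (1 / ‖u‖) (-(((-1 : ℝ) ^ k) / ‖v‖)) (by
      rw [ha, hb, norm_smul, norm_smul, AD.norm_dirv, AD.norm_dirv, norm_norm, norm_norm, mul_one,
        mul_one, smul_smul, smul_smul, h1, smul_smul]
      rw [one_div_mul_cancel hu, one_mul, neg_mul, div_mul_cancel₀ _ hv, neg_smul]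
      exact add_neg_cancel _)
    exact one_div_ne_zero hu h2.1
  obtain ⟨F, hF, h⟩ := AD.mainA2 (K := K) ⟨hK, hs, hi, hsm⟩ a b hab
  refine ⟨F, hF, fun s t hst V hV hne hVu hVv hVs hVt => h (s, t) hst V hV hne ?_⟩
  intro i
  fin_cases i
  · exact inv_smul hu ha hVu
  · exact inv_smul hv hb hVv
  · exact hVs
  · exact hVt

end Pool.Agent.Results.MP_150b3d_gt.TwoMoreDirections
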